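import Pool.Agent.N869.QT.L.Stm

/-!
# Project GK (helper869), linear algebra: 2-Selmer groups of twists in coloured block systems over `𝔽₂`

`Gr r = 𝔽₂ ^ r` (square classes of units at a finite set of places, and also the dual group: the labels of
the primes), `V = 𝔽₂ ^ 2`. The vertices (the prime divisors of the twisting number) have labels
`lab i : Gr r` and symbols `N i j` (`j` modulo `i`). `Sol` is the 2-Selmer group. The constants
`em, ll, aa, bb` are the classes of `-1`, `e₁ - e₂`, `(e₁ - e₂) (e₁ - e₃)`, `(e₂ - e₁) (e₂ - e₃)`, and `W` is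
a maximal subgroup on which the quadratic form `qS` is zero (the local conditions at the bad places).
The symbols between the large primes `J` are random. The order of `Sol` is `2 ^ (ρ + 2)` with the
probability `kap ρ` of Heath-Brown, for several systems of colours independently.
-/

set_option autoImplicit false
set_option linter.unusedVariables false

open scoped Classical

namespace Pool.Agent.N869.GK

open Finset
open Pool.Agent.N869.QT.L (prs ext Lc Fam)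

/-- vectors over the field with two elements: square classes, or labels -/
abbrev Gr (r : ℕ) : Type := Fin r → ZMod 2

/-- pairs -/
abbrev V : Type := Fin 2 → ZMod 2

/-- the pairing of a class with a label -/
def dot {r : ℕ} (x y : Gr r) : ZMod 2 := ∑ i, x i * y i

/-- the local classes at the bad places: `X.1` a pair of classes of units, `X.2` a pair of labels -/
abbrev Hr (r : ℕ) : Type := (Fin 2 → Gr r) × (Fin 2 → Gr r)

/-- the data of the curve -/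
structure Par (r : ℕ) where
  em : Gr r
  ll : Gr r
  aa : Gr r
  bb : Gr r
  W : AddSubgroup (Hr r)

/-- the quadratic form -/
def qS {r : ℕ} (D : Par r) (X : Hr r) : ZMod 2 :=
  dot (X.1 0) (X.2 1) + dot (X.1 1) (X.2 0) + dot D.em (X.2 0) * dot D.em (X.2 1) +
    dot D.ll (X.2 0) + dot (D.ll + D.em) (X.2 1)

/-- its bilinear form -/
def bS {r : ℕ} (D : Par r) (X Y : Hr r) : ZMod 2 := qS D (X + Y) + qS D X + qS D Y

/-- the hypotheses on the data -/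
structure Ok {r : ℕ} (D : Par r) : Prop where
  sing : ∀ X ∈ D.W, qS D X = 0
  max : ∀ Y, (∀ X ∈ D.W, bS D X Y = 0) → Y ∈ D.W
  t1 : ((![D.aa, D.ll], 0) : Hr r) ∈ D.W
  t2 : ((![D.ll + D.em, D.bb], 0) : Hr r) ∈ D.W
  ha : D.aa ≠ 0
  hb : D.bb ≠ 0
  hab : D.aa + D.bb ≠ D.em
  he : ¬ (D.aa = D.em ∧ D.bb = D.em)

/-- the parity of the rank -/
def Rk {r : ℕ} (D : Par r) (e : ℕ) : Prop :=
  ∃ k : ℕ, Nat.card {s : Fin 2 → Gr r // ((s, 0) : Hr r) ∈ D.W} = 2 ^ (2 * k + e)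

/-- the local matrix at a prime with label `π` -/
def Dm {r : ℕ} (D : Par r) (π : Gr r) (v : V) : V :=
  ![dot (D.ll + D.em) π * v 0 + dot D.aa π * v 1, dot D.bb π * v 0 + dot D.ll π * v 1]

/-- the equations at the vertex `i` -/
def row {r : ℕ} {R : Type} (D : Par r) (lab : R → Gr r) (N : R → R → ZMod 2) (T : Finset R)
    (s : Fin 2 → Gr r) (v : R → V) (i : R) : V :=
  fun c => dot (s c) (lab i) + ∑ j ∈ T, N i j * (v i c + v j c) + Dm D (lab i) (v i) c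

/-- the classes at the bad places -/
def Xl {r : ℕ} {R : Type} (lab : R → Gr r) (T : Finset R) (s : Fin 2 → Gr r) (v : R → V) : Hr r :=
  (s, fun c => ∑ i ∈ T, v i c • lab i)

/-- the elements of the 2-Selmer group of the twist by the product of `T` -/
def Sol {r : ℕ} {R : Type} (D : Par r) (lab : R → Gr r) (N : R → R → ZMod 2) (T : Finset R)
    (x : (Fin 2 → Gr r) × (R → V)) : Prop :=
  (∀ i, i ∉ T → x.2 i = 0) ∧ Xl lab T x.1 x.2 ∈ D.W ∧ ∀ i ∈ T, row D lab N T x.1 x.2 i = 0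

/-- the 2-Selmer group has order `2 ^ (ρ + 2)` -/
def Gk {r : ℕ} {R : Type} (D : Par r) (lab : R → Gr r) (N : R → R → ZMod 2) (ρ : ℕ)
    (T : Finset R) : Prop := {x | Sol D lab N T x}.ncard = 2 ^ (ρ + 2)

/-- the limit `0.4194...` -/
noncomputable def c4 : ℝ := ∏' i : ℕ, (1 - (1 / 2 : ℝ) ^ (2 * i + 1))

/-- the probability that the rank is `ρ`, given the parity -/
noncomputable def kap (ρ : ℕ) : ℝ := c4 * ∏ i ∈ range ρ, (2 / (2 ^ (i + 1) - 1) : ℝ)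

/-- the moments -/
def mom (m : ℕ) : ℝ := ∏ i ∈ range m, (1 + 2 ^ (i + 1) : ℝ)

section blocks

variable {r : ℕ} {U J : Type} [Fintype U] [Fintype J]

/-- the symbols: `A` between small primes, `B u k` the symbol of the small prime `u` modulo the large
prime `k`, `α` the random symbols between the large primes -/
noncomputable def Nm [LinearOrder J] (D : Par r) (lU : U → Gr r) (lJ : J → Gr r)
    (A : U → U → ZMod 2) (B : U → J → ZMod 2) (α : prs J → ZMod 2) : U ⊕ J → U ⊕ J → ZMod 2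
  | .inl u, .inl v => A u v
  | .inl u, .inr k => B u k + dot D.em (lU u) * dot D.em (lJ k)
  | .inr k, .inl u => B u k
  | .inr k, .inr l => ext (fun k => dot D.em (lJ k)) α k l

/-- the vertices of the system `a` -/
noncomputable def TT {I Q : Type} (W : I → Finset U) (E : I → Finset Q) (g : J → Q) (a : I) :
    Finset (U ⊕ J) := (W a).disjSum (Lc E g a)

/-- the hypotheses on the blocks: `g k` is the colour of the large prime `k` -/
structure HypG {I Q : Type} (D : Par r) (K : ℕ) (W : I → Finset U) (E : I → Finset Q) (g : J → Q)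
    (lU : U → Gr r) (lJ : J → Gr r) (A : U → U → ZMod 2) (B : U → J → ZMod 2) : Prop where
  many : ∀ (q : Q) (π : Gr r), K * (Fintype.card U + Nat.log 2 (Fintype.card J) + 1) ≤
    (univ.filter fun k => g k = q ∧ lJ k = π).card
  par : ∀ a, ∑ u ∈ W a, lU u + ∑ k ∈ Lc E g a, lJ k = 0
  recip : ∀ u v, u ≠ v → A u v + A v u = dot D.em (lU u) * dot D.em (lU v)
  nd : ∀ (q : Q) (w : U → ZMod 2), (∃ u, w u ≠ 0) →
    ∃ k, g k = q ∧ lJ k = 0 ∧ ∑ u, w u * B u k ≠ 0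

end blocks

/-- the probability that all the systems have rank `ρ` is close to `kap ρ ^ #I` -/
def LAEG {r : ℕ} (D : Par r) (ρ : ℕ) {I Q : Type} [Fintype I] (E : I → Finset Q) (ε : ℝ) (K : ℕ) :
    Prop :=
  ∀ (U J : Type) [Fintype U] [Fintype J] [LinearOrder J] (W : I → Finset U) (g : J → Q)
  (lU : U → Gr r) (lJ : J → Gr r) (A : U → U → ZMod 2) (B : U → J → ZMod 2),
  HypG D K W E g lU lJ A B →
  |((univ.filter fun α : prs J → ZMod 2 =>
      ∀ a, Gk D (Sum.elim lU lJ) (Nm D lU lJ A B α) ρ (TT W E g a)).card : ℝ) /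
      2 ^ (prs J).card - kap ρ ^ Fintype.card I| ≤ ε

/-- GK-LA: the law. -/
def S_LAG : Prop := ∀ (r : ℕ) (D : Par r), Ok D → ∀ e : ℕ, Rk D e → ∀ ρ : ℕ, ρ % 2 = e % 2 →
  ∀ (I Q : Type) [Fintype I] [Fintype Q] (E : I → Finset Q), Fam E →
  ∀ ε : ℝ, 0 < ε → ∃ K : ℕ, LAEG D ρ E ε K

/-! ### Parity -/

/-- GK-ALTR: the rank of an alternating form over `𝔽₂` is even. -/
def S_ALTR : Prop := ∀ (K : Type) [AddCommGroup K] [Module (ZMod 2) K] [Finite K]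
  (f : K →ₗ[ZMod 2] K →ₗ[ZMod 2] ZMod 2), (∀ x, f x x = 0) →
  ∃ n : ℕ, Nat.card K = Nat.card {x : K // ∀ y, f x y = 0} * 4 ^ n

/-- the labels of the elements of `T` span and have sum zero, the symbols satisfy the reciprocity law -/
structure Hyp1 {r : ℕ} {R : Type} (D : Par r) (lab : R → Gr r) (N : R → R → ZMod 2) (T : Finset R) :
    Prop where
  all : ∀ π : Gr r, ∃ i ∈ T, lab i = π
  par : ∑ i ∈ T, lab i = 0
  recip : ∀ i ∈ T, ∀ j ∈ T, i ≠ j → N i j + N j i = dot D.em (lab i) * dot D.em (lab j)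

/-- the Weil pairing on `V` -/
def om (v w : V) : ZMod 2 := v 0 * w 1 + v 1 * w 0

/-- GK-AUTO: the relations between the equations. -/
def S_AUTO : Prop := ∀ (r : ℕ) (D : Par r), Ok D → ∀ (R : Type) (lab : R → Gr r)
  (N : R → R → ZMod 2) (T : Finset R), ∑ i ∈ T, lab i = 0 →
  (∀ i ∈ T, ∀ j ∈ T, i ≠ j → N i j + N j i = dot D.em (lab i) * dot D.em (lab j)) →
  (∀ (s : Fin 2 → Gr r) (v : R → V), Xl lab T s v ∈ D.W →
    (∀ c : V, ∑ i ∈ T, om c (row D lab N T s v i) = 0) ∧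
    ∑ i ∈ T, om (v i) (row D lab N T s v i) = 0) ∧
  ∀ (s s' : Fin 2 → Gr r) (v v' : R → V), Xl lab T s v ∈ D.W → Xl lab T s' v' ∈ D.W →
    ∑ i ∈ T, om (v' i) (row D lab N T s v i) = ∑ i ∈ T, om (v i) (row D lab N T s' v' i)

/-- GK-TOR: the torsion points. -/
def S_TOR : Prop := ∀ (r : ℕ) (D : Par r), Ok D → ∀ (R : Type) (lab : R → Gr r)
  (N : R → R → ZMod 2) (T : Finset R), (∑ i ∈ T, lab i = 0 → ∀ z : V,
    Sol D lab N T (![z 0 • (D.ll + D.em) + z 1 • D.aa, z 0 • D.bb + z 1 • D.ll],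
      fun i => if i ∈ T then z else 0)) ∧
  ((∀ π : Gr r, ∃ i ∈ T, lab i = π) → ∀ (s : Fin 2 → Gr r) (z : V),
    (∀ i ∈ T, row D lab N T s (fun _ => z) i = 0) →
    s = ![z 0 • (D.ll + D.em) + z 1 • D.aa, z 0 • D.bb + z 1 • D.ll])

/-- GK-KC: the number of pairs that satisfy the local conditions at the bad places. -/
def S_KC : Prop := ∀ (r : ℕ) (D : Par r), Ok D → ∀ (R : Type) [Fintype R] (lab : R → Gr r),
  (∀ π : Gr r, ∃ i, lab i = π) →
  Nat.card {x : (Fin 2 → Gr r) × (R → V) // Xl lab univ x.1 x.2 ∈ D.W} = 4 ^ Fintype.card R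

/-- GK-PAR: the parity of the rank. -/
def S_PAR : Prop := S_ALTR → S_AUTO → S_TOR → S_KC → ∀ (r : ℕ) (D : Par r), Ok D → ∀ e : ℕ,
  Rk D e → ∀ (R : Type) [Fintype R] (lab : R → Gr r) (N : R → R → ZMod 2), Hyp1 D lab N univ →
  ∃ ρ : ℕ, ρ % 2 = e % 2 ∧ Gk D lab N ρ univ

/-- GK-SUB: restriction to the vertices in `T`. -/
def S_SUB : Prop := ∀ (r : ℕ) (D : Par r) (R R' : Type) (f : R' → R), Function.Injective f →
  ∀ (lab : R → Gr r) (N : R → R → ZMod 2) (T : Finset R) (T' : Finset R'),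
  (∀ i, i ∈ T ↔ ∃ j ∈ T', f j = i) →
  {x | Sol D lab N T x}.ncard = {x | Sol D (fun i => lab (f i)) (fun i j => N (f i) (f j)) T' x}.ncard ∧
  {x | Sol D lab N T x}.Finite

/-! ### Decorations -/

section dec

variable {ι : Type} [Fintype ι]

/-- decorations: for every copy a vector and a dual vector -/
abbrev Dc (ι : Type) : Type := ι → V × V

/-- the decorations with support in `B` -/
noncomputable def Sp (B : Finset ι) : Finset (Dc ι) := univ.filter fun ζ => ∀ x, x ∉ B → ζ x = 0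

/-- two decorations are linked if this is `1` -/
def Qs (B : Finset ι) (ζ ζ' : Dc ι) : ZMod 2 :=
  ∑ x ∈ B, om ((ζ x).2 + (ζ' x).2) ((ζ x).1 + (ζ' x).1)

/-- the maximal unlinked sets -/
def MS (B : Finset ι) (Z : Finset (Dc ι)) : Prop :=
  Z ⊆ Sp B ∧ Z.card = 4 ^ B.card ∧ ∀ ζ ∈ Z, ∀ ζ' ∈ Z, Qs B ζ ζ' = 0

/-- the action of matrices -/
def act (M : Matrix (Fin 2) (Fin 2) (ZMod 2)) (ζ : Dc ι) : Dc ι :=
  fun x => (M.mulVec (ζ x).1, M.mulVec (ζ x).2)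

/-- the stable sets -/
def Stb (Z : Finset (Dc ι)) : Prop :=
  ∀ M : Matrix (Fin 2) (Fin 2) (ZMod 2), ∀ ζ ∈ Z, ∀ ζ' ∈ Z, ζ + act M (ζ + ζ') ∈ Z

/-- the sign -/
noncomputable def sn (a : ZMod 2) : ℝ := if a = 0 then 1 else -1

end dec

/-- GK-UNL: the maximal unlinked sets are cosets of groups that are their own duals. -/
def S_UNL : Prop := ∀ (ι : Type) [Fintype ι] (B : Finset ι),
  (∀ Z : Finset (Dc ι), Z ⊆ Sp B → (∀ ζ ∈ Z, ∀ ζ' ∈ Z, Qs B ζ ζ' = 0) → Z.card ≤ 4 ^ B.card) ∧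
  ∀ Z : Finset (Dc ι), MS B Z →
    (∀ ζ₁ ∈ Z, ∀ ζ₂ ∈ Z, ∀ ζ₃ ∈ Z, ζ₁ + ζ₂ + ζ₃ ∈ Z) ∧
    (∀ ζ ∈ Sp B, (∀ ζ' ∈ Z, Qs B ζ ζ' = 0) → ζ ∈ Z) ∧
    ∀ η ∈ Sp B, (∀ ζ₁ ∈ Z, ∀ ζ₂ ∈ Z, ∑ x ∈ B, (om ((ζ₁ x).2 + (ζ₂ x).2) (η x).1 +
      om (η x).2 ((ζ₁ x).1 + (ζ₂ x).1)) = 0) → ∀ ζ ∈ Z, ζ + η ∈ Z

section fam

variable {ι I Q : Type} [Fintype ι] [Fintype I] [Fintype Q]

/-- the copies of the systems that contain the colour `q` -/
noncomputable def Aq (E : I → Finset Q) (c : ι → I) (q : Q) : Finset ι :=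
  univ.filter fun x => q ∈ E (c x)

/-- the copies of the system `a` -/
noncomputable def cp (c : ι → I) (a : I) : Finset ι := univ.filter fun x => c x = a

/-- the part of a decoration that belongs to the system `a` -/
noncomputable def rs (c : ι → I) (a : I) (ζ : Dc ι) : Dc ι := fun x => if c x = a then ζ x else 0

/-- the decorations of the colour (or the small prime) with the systems `a`, `P a` -/
noncomputable def PZ (c : ι → I) (Y : I → Finset (Dc ι)) (P : I → Prop) : Finset (Dc ι) :=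
  (Sp (univ.filter fun x => P (c x))).filter fun ζ => ∀ a, P a → rs c a ζ ∈ Y a

end fam

/-- GK-FAM: full families of unlinked sets are products. -/
def S_FAM : Prop := S_UNL → ∀ (ι I Q : Type) [Fintype ι] [Fintype I] [Fintype Q]
  (E : I → Finset Q) (c : ι → I), Fam E →
  (∀ Z : Q → Finset (Dc ι), (∀ q, Z q ⊆ Sp (Aq E c q)) → (∀ q, (Z q).card = 4 ^ (Aq E c q).card) →
    (∀ q q', ∀ ζ ∈ Z q, ∀ ζ' ∈ Z q', Qs (Aq E c q ∩ Aq E c q') ζ ζ' = 0) →
    ∃ Y : I → Finset (Dc ι), (∀ a, MS (cp c a) (Y a)) ∧ ∀ q, Z q = PZ c Y fun a => q ∈ E a) ∧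
  (∀ Y : I → Finset (Dc ι), (∀ a, MS (cp c a) (Y a)) →
    (∀ q, (PZ c Y fun a => q ∈ E a).card = 4 ^ (Aq E c q).card) ∧
    ∀ q q', ∀ ζ ∈ PZ c Y (fun a => q ∈ E a), ∀ ζ' ∈ PZ c Y (fun a => q' ∈ E a),
      Qs (Aq E c q ∩ Aq E c q') ζ ζ' = 0) ∧
  ∀ Y Y' : I → Finset (Dc ι), (∀ a, MS (cp c a) (Y a)) → (∀ a, MS (cp c a) (Y' a)) →
    (∀ q, (PZ c Y fun a => q ∈ E a) = PZ c Y' fun a => q ∈ E a) → Y = Y'

/-- GK-SPLIT: sums over all unlinked decorations. -/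
def S_SPLIT : Prop := S_UNL → S_FAM → ∀ (ι I Q : Type) [Fintype ι] [Fintype I] [Fintype Q]
  (E : I → Finset Q) (c : ι → I), Fam E → ∃ C : ℝ, 0 ≤ C ∧
  ∀ (J : Type) [Fintype J] (g : J → Q) (F : (J → Dc ι) → ℝ) (M : ℝ) (L : ℕ),
  (∀ ζ, |F ζ| ≤ M) → (∀ q, L ≤ (univ.filter fun k => g k = q).card) →
  |∑ ζ ∈ univ.filter (fun ζ : J → Dc ι => (∀ k, ζ k ∈ Sp (Aq E c (g k))) ∧
      ∀ k l, k ≠ l → Qs (Aq E c (g k) ∩ Aq E c (g l)) (ζ k) (ζ l) = 0), F ζ -
    ∑ Y ∈ univ.filter (fun Y : I → Finset (Dc ι) => ∀ a, MS (cp c a) (Y a)),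
      ∑ ζ ∈ Fintype.piFinset (fun k => PZ c Y fun a => g k ∈ E a), F ζ| ≤
    C * M * (1 - (1 / 4 : ℝ) ^ Fintype.card ι) ^ L * ∏ k, (4 : ℝ) ^ (Aq E c (g k)).card

/-! ### The moments -/

section mm

variable {r : ℕ} {ι I : Type} [Fintype ι]

/-- the exponent -/
def Ex {R : Type} (D : Par r) (lab : R → Gr r) (N : R → R → ZMod 2) (T : ι → Finset R)
    (s : ι → Fin 2 → Gr r) (ζ : R → Dc ι) : ZMod 2 :=
  ∑ x, ∑ i ∈ T x, om (ζ i x).2 (row D lab N (T x) (s x) (fun j => (ζ j x).1) i)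

/-- the local conditions at the bad places -/
def XW {R : Type} (D : Par r) (lab : R → Gr r) (T : ι → Finset R) (s : ι → Fin 2 → Gr r)
    (ζ : R → Dc ι) : Prop := ∀ x, Xl lab (T x) (s x) (fun i => (ζ i x).1) ∈ D.W

end mm

/-- GK-EXP: the moments are sums over unlinked decorations. -/
def S_EXP : Prop := ∀ (r : ℕ) (D : Par r) (U J I Q ι : Type) [Fintype U] [Fintype J]
  [LinearOrder J] [Fintype ι] (W : I → Finset U) (E : I → Finset Q) (g : J → Q) (c : ι → I)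
  (lU : U → Gr r) (lJ : J → Gr r) (A : U → U → ZMod 2) (B : U → J → ZMod 2),
  ((univ.filter fun y : (prs J → ZMod 2) × (ι → (Fin 2 → Gr r) × (U ⊕ J → V)) =>
      ∀ x, Sol D (Sum.elim lU lJ) (Nm D lU lJ A B y.1) (TT W E g (c x)) (y.2 x)).card : ℝ) *
    4 ^ (∑ x, (TT W E g (c x)).card) =
  2 ^ (prs J).card * ∑ s : ι → Fin 2 → Gr r,
    ∑ ζ ∈ univ.filter (fun ζ : U ⊕ J → Dc ι => (∀ i x, i ∉ TT W E g (c x) → ζ i x = 0) ∧
      XW D (Sum.elim lU lJ) (fun x => TT W E g (c x)) s ζ ∧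
      ∀ k l, k ≠ l → Qs (Aq E c (g k) ∩ Aq E c (g l)) (ζ (.inr k)) (ζ (.inr l)) = 0),
      sn (Ex D (Sum.elim lU lJ) (Nm D lU lJ A B 0) (fun x => TT W E g (c x)) s ζ)

/-- GK-SMALL: the decorations of the small primes. -/
def S_SMALL : Prop := S_UNL → ∀ (r : ℕ) (D : Par r) (K : ℕ) (U J I Q ι : Type) [Fintype U]
  [Fintype J] [LinearOrder J] [Fintype ι] [Fintype I] [Fintype Q] (W : I → Finset U)
  (E : I → Finset Q) (g : J → Q) (c : ι → I) (lU : U → Gr r) (lJ : J → Gr r)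
  (A : U → U → ZMod 2) (B : U → J → ZMod 2), Fam E → HypG D K W E g lU lJ A B →
  ∀ Y : I → Finset (Dc ι), (∀ a, MS (cp c a) (Y a)) → ∀ (s : ι → Fin 2 → Gr r) (ζU : U → Dc ι),
  (∀ u, ζU u ∈ Sp (univ.filter fun x => u ∈ W (c x))) →
  (∃ u, ζU u ∉ PZ c Y fun a => u ∈ W a) →
  ∑ ζ ∈ (Fintype.piFinset fun k => PZ c Y fun a => g k ∈ E a).filter (fun ζ : J → Dc ι =>
      XW D (Sum.elim lU lJ) (fun x => TT W E g (c x)) s (Sum.elim ζU ζ)),
    sn (Ex D (Sum.elim lU lJ) (Nm D lU lJ A B 0) (fun x => TT W E g (c x)) s (Sum.elim ζU ζ)) = 0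

/-- the sum for one system and one maximal unlinked set -/
noncomputable def One {r : ℕ} {R ι : Type} [Fintype R] [Fintype ι] (D : Par r) (lab : R → Gr r)
    (N : R → R → ZMod 2) (Z : Finset (Dc ι)) : ℝ :=
  ∑ s : ι → Fin 2 → Gr r, ∑ ζ ∈ (Fintype.piFinset fun _ : R => Z).filter (fun ζ : R → Dc ι =>
      XW D lab (fun _ => univ) s ζ), sn (Ex D lab N (fun _ => univ) s ζ)

/-- the part of a decoration of the copies of `a` -/
noncomputable def rd {ι I : Type} (c : ι → I) (a : I) (Y : Finset (Dc ι)) : Finset (Dc {x // c x = a}) :=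
  Y.image fun ζ x => ζ x.1

/-- GK-FACT: the product over the systems. -/
def S_FACT : Prop := ∀ (r : ℕ) (D : Par r) (R I ι : Type) [Fintype R] [Fintype ι] [Fintype I]
  (T : I → Finset R) (c : ι → I) (lab : R → Gr r) (N : R → R → ZMod 2)
  (Y : I → Finset (Dc ι)), (∀ a, MS (cp c a) (Y a)) →
  (∑ s : ι → Fin 2 → Gr r, ∑ ζ ∈ (Fintype.piFinset fun i => PZ c Y fun a => i ∈ T a).filter
      (fun ζ : R → Dc ι => XW D lab (fun x => T (c x)) s ζ),
    sn (Ex D lab N (fun x => T (c x)) s ζ) =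
  ∏ a, One D (fun i : {i // i ∈ T a} => lab i.1) (fun i j => N i.1 j.1) (rd c a (Y a))) ∧
  ∀ a, MS univ (rd c a (Y a))

/-- GK-PAIR: the sets that are not stable contribute little. -/
def S_PAIR : Prop := S_UNL → ∀ (r : ℕ) (D : Par r), Ok D → ∀ (R ι : Type) [Fintype R] [Fintype ι]
  (lab : R → Gr r) (N : R → R → ZMod 2) (L : ℕ), Hyp1 D lab N univ →
  (∀ π : Gr r, 2 * L ≤ (univ.filter fun i => lab i = π).card) →
  ∀ Z : Finset (Dc ι), MS univ Z → ¬ Stb Z →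
  |One D lab N Z| ≤ 4 ^ (r * Fintype.card ι) * (1 / 2) ^ L * 4 ^ (Fintype.card ι * Fintype.card R)

/-- GK-VAL: the value for the stable sets. -/
def S_VAL : Prop := S_UNL → S_AUTO → S_TOR → S_KC → ∀ (r : ℕ) (D : Par r), Ok D →
  ∀ (R ι : Type) [Fintype R] [Fintype ι] (lab : R → Gr r) (N : R → R → ZMod 2),
  Hyp1 D lab N univ → ∀ Z : Finset (Dc ι), MS univ Z → Stb Z →
  One D lab N Z = 4 ^ (Fintype.card ι * Fintype.card R)

/-- GK-COUNT: the number of the stable sets (Lagrangian subspaces). -/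
def S_COUNT : Prop := S_UNL → ∀ (ι : Type) [Fintype ι],
  ((univ.filter fun Z : Finset (Dc ι) => MS univ Z ∧ Stb Z).card : ℝ) =
    4 ^ Fintype.card ι * mom (Fintype.card ι)

/-- the number of the copies of `a` -/
noncomputable def mc {ι I : Type} [Fintype ι] (c : ι → I) (a : I) : ℕ := (cp c a).card

/-- GK-MOM: the joint moments. -/
def S_MOM : Prop := ∀ (r : ℕ) (D : Par r), Ok D → ∀ (ι I Q : Type) [Fintype ι] [Fintype I]
  [Fintype Q] (E : I → Finset Q) (c : ι → I), Fam E → ∀ ε : ℝ, 0 < ε → ∃ K : ℕ,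
  ∀ (U J : Type) [Fintype U] [Fintype J] [LinearOrder J] (W : I → Finset U) (g : J → Q)
  (lU : U → Gr r) (lJ : J → Gr r) (A : U → U → ZMod 2) (B : U → J → ZMod 2),
  HypG D K W E g lU lJ A B →
  |((univ.filter fun y : (prs J → ZMod 2) × (ι → (Fin 2 → Gr r) × (U ⊕ J → V)) =>
      ∀ x, Sol D (Sum.elim lU lJ) (Nm D lU lJ A B y.1) (TT W E g (c x)) (y.2 x)).card : ℝ) /
      2 ^ (prs J).card - ∏ a, (4 : ℝ) ^ mc c a * mom (mc c a)| ≤ ε

/-- GK-MOMA: the joint moments from the parts. -/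
def S_MOMA : Prop := S_UNL → S_FAM → S_SPLIT → S_EXP → S_SMALL → S_FACT → S_PAIR → S_VAL →
  S_COUNT → S_AUTO → S_TOR → S_KC → S_MOM

/-! ### From the moments to the law -/

/-- GK-INVU: the moments determine the law (several variables with fixed parity). -/
def S_INVU : Prop := ∀ (I : Type) [Fintype I] (e ρ : ℕ) (ε : ℝ), 0 < ε → ∃ (m₀ : ℕ) (δ : ℝ), 0 < δ ∧
  ∀ (Ω Ω' : Type) [Fintype Ω] [Nonempty Ω] [Fintype Ω'] [Nonempty Ω'] (k : Ω → I → ℕ)
  (k' : Ω' → I → ℕ), (∀ ω a, k ω a % 2 = e % 2) → (∀ ω a, k' ω a % 2 = e % 2) →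
  (∀ m : I → ℕ, (∀ a, m a ≤ m₀) →
    |(∑ ω, ∏ a, (2 : ℝ) ^ (m a * k ω a)) / Fintype.card Ω - ∏ a, mom (m a)| ≤ δ) →
  (∀ m : I → ℕ, (∀ a, m a ≤ m₀) →
    |(∑ ω, ∏ a, (2 : ℝ) ^ (m a * k' ω a)) / Fintype.card Ω' - ∏ a, mom (m a)| ≤ δ) →
  |((univ.filter fun ω : Ω => ∀ a, k ω a = ρ).card : ℝ) / Fintype.card Ω -
    ((univ.filter fun ω : Ω' => ∀ a, k' ω a = ρ).card : ℝ) / Fintype.card Ω'| ≤ ε

/-- GK-REF: a variable with almost these moments and almost the law `kap` (for instance the corank of a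
random alternating matrix of large size). -/
def S_REF : Prop := ∀ (e ρ : ℕ), ρ % 2 = e % 2 → ∀ (m₀ : ℕ) (δ : ℝ), 0 < δ →
  ∃ (Ω : Type) (_ : Fintype Ω) (_ : Nonempty Ω) (k : Ω → ℕ), (∀ ω, k ω % 2 = e % 2) ∧
  (∀ m : ℕ, m ≤ m₀ → |(∑ ω, (2 : ℝ) ^ (m * k ω)) / Fintype.card Ω - mom m| ≤ δ) ∧
  |((univ.filter fun ω : Ω => k ω = ρ).card : ℝ) / Fintype.card Ω - kap ρ| ≤ δ

/-- GK-INV: the law from the moments. -/
def S_INV : Prop := ∀ (I : Type) [Fintype I] (e ρ : ℕ), ρ % 2 = e % 2 → ∀ ε : ℝ, 0 < ε →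
  ∃ (m₀ : ℕ) (δ : ℝ), 0 < δ ∧
  ∀ (Ω : Type) [Fintype Ω] [Nonempty Ω] (k : Ω → I → ℕ), (∀ ω a, k ω a % 2 = e % 2) →
  (∀ m : I → ℕ, (∀ a, m a ≤ m₀) →
    |(∑ ω, ∏ a, (2 : ℝ) ^ (m a * k ω a)) / Fintype.card Ω - ∏ a, mom (m a)| ≤ δ) →
  |((univ.filter fun ω : Ω => ∀ a, k ω a = ρ).card : ℝ) / Fintype.card Ω - kap ρ ^ Fintype.card I| ≤ ε

/-- GK-INVA -/
def S_INVA : Prop := S_INVU → S_REF → S_INV

/-- GK-KAP: the numbers `kap`. -/
def S_KAP : Prop := (0 < c4 ∧ 0.4194 < c4 ∧ c4 < 0.4195) ∧ (∀ ρ, 0 ≤ kap ρ ∧ kap ρ ≤ 1) ∧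
  ∀ e < 2, HasSum (fun j : ℕ => kap (2 * j + e)) 1

/-- GK-LAA: assembly of the linear algebra. -/
def S_LAA : Prop := S_MOM → S_INV → S_PAR → S_ALTR → S_AUTO → S_TOR → S_KC → S_SUB → S_LAG

end Pool.Agent.N869.GK
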