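import Pool.Agent.N401.GK.ALTR
import Pool.Agent.N901.GK.AUTO
import Pool.Agent.N891.GK.TOR
import Pool.Agent.N558.GK.KC
import Pool.Agent.N713.GK.PAR
import Pool.Agent.N853.GK.SUB
import Pool.Agent.N286.GK.UNL
import Pool.Agent.N386.GK.FAM
import Pool.Agent.N7.GK.Split
import Pool.Agent.N527.GK.Exp
import Pool.Agent.N701.GK.SMALL
import Pool.Agent.N364.GK.FACT
import Pool.Agent.N314.GK.PAIR
import Pool.Agent.N833.GK.VAL
import Pool.Agent.N814.GK.COUNT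
import Pool.Agent.N344.GK.MOMA
import Pool.Agent.N128.GK.INVU
import Pool.Agent.N693.GK.REF
import Pool.Agent.N55.GK.INVA
import Pool.Agent.N495.GK.Kap
import Pool.Agent.N195.GK.LAA

/-!
# Project GK (helper869): the linear algebra, assembly

Parts by helpers 7, 55, 128, 195, 286, 314, 344, 364, 386, 401, 495, 527, 558, 693, 701, 713, 814, 833,
853, 891, 901.
-/

set_option autoImplicit false

namespace Pool.Agent.N869.GK

theorem t_MOM' : S_MOM :=
  Pool.Agent.N344.GK.t_MOMA Pool.Agent.N286.GK.t_UNL Pool.Agent.N386.GK.t_FAM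
    Pool.Agent.N7.GK.Split.t_SPLIT Pool.Agent.N527.GK.Exp.t_EXP Pool.Agent.N701.GK.t_SMALL
    Pool.Agent.N364.GK.t_FACT Pool.Agent.N314.GK.t_PAIR Pool.Agent.N833.GK.t_VAL
    Pool.Agent.N814.GK.t_COUNT Pool.Agent.N901.GK.t_AUTO Pool.Agent.N891.GK.t_TOR
    Pool.Agent.N558.GK.t_KC

theorem t_LAG' : S_LAG :=
  Pool.Agent.N195.GK.t_LAA t_MOM'
    (Pool.Agent.N55.GK.t_INVA Pool.Agent.N128.GK.t_INVU Pool.Agent.N693.GK.t_REF)
    Pool.Agent.N713.GK.t_PAR Pool.Agent.N401.GK.t_ALTR Pool.Agent.N901.GK.t_AUTO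
    Pool.Agent.N891.GK.t_TOR Pool.Agent.N558.GK.t_KC Pool.Agent.N853.GK.t_SUB

end Pool.Agent.N869.GK
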